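import Pool.Agent.helper82.T6.SpecW
import Pool.Agent.helper63.FT.E2
import Pool.Agent.helper77.FT.E1

set_option autoImplicit false

/-!
# Weyl sums without logarithms (row t6:WWY)
-/

namespace Pool.Agent.T6

open Finset Pool.Agent.helper3.FT Pool.Agent.T5

/-! ### Convolution of intervals -/

theorem WWY_conv {E : Type} [AddCommMonoid E] (L : ℕ) (f : ℤ → E) :
    ∑ a ∈ Icc (-(L : ℤ)) L, ∑ b ∈ Icc (-(L : ℤ)) L, f (a + b) =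
      ∑ m ∈ Icc (-(2 * L : ℤ)) (2 * L), (2 * (L : ℤ) + 1 - |m|).toNat • f m := by
  have h1 : ∀ a : ℤ, ∑ b ∈ Icc (-(L : ℤ)) L, f (a + b) = ∑ m ∈ Icc (a - L) (a + L), f m := by
    intro a
    refine sum_bij' (fun b _ => a + b) (fun m _ => m - a) ?_ ?_ ?_ ?_ ?_
    · intro b hb
      simp only [mem_Icc] at hb ⊢
      omega
    · intro b hb
      simp only [mem_Icc] at hb ⊢
      omega
    · intro b _
      ring
    · intro b _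
      ring
    · intro b _
      rfl
  simp only [h1]
  rw [Finset.sum_comm' (t' := Icc (-(2 * L : ℤ)) (2 * L))
    (s' := fun m => Icc (max (-(L : ℤ)) (m - L)) (min (L : ℤ) (m + L)))]
  · refine sum_congr rfl fun m hm => ?_
    rw [sum_const, Int.card_Icc]
    congr 2
    rw [mem_Icc] at hm
    rcases le_total 0 m with h0 | h0
    · rw [abs_of_nonneg h0, max_eq_right (by omega), min_eq_left (by omega)]
      ring
    · rw [abs_of_nonpos h0, max_eq_left (by omega), min_eq_right (by omega)]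
      ring
  · intro a m
    simp only [mem_Icc, max_le_iff, le_min_iff]
    omega

theorem WWY_tw (L : ℕ) (hL : 1 ≤ L) (m : ℤ) (hm : m ∈ Icc (-(2 * L : ℤ)) (2 * L)) :
    tw L m = (((2 * (L : ℤ) + 1 - |m|).toNat : ℕ) : ℝ) / L := by
  rw [mem_Icc] at hm
  have h1 : |m| ≤ 2 * L := abs_le.mpr hm
  have h2 : (((2 * (L : ℤ) + 1 - |m|).toNat : ℕ) : ℝ) = 2 * L + 1 - |(m : ℝ)| := by
    have h3 : (((2 * (L : ℤ) + 1 - |m|).toNat : ℕ) : ℤ) = 2 * (L : ℤ) + 1 - |m| :=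
      Int.toNat_of_nonneg (by omega)
    have h4 : (((2 * (L : ℤ) + 1 - |m|).toNat : ℕ) : ℝ) = ((2 * (L : ℤ) + 1 - |m| : ℤ) : ℝ) := by
      exact_mod_cast congrArg (fun z : ℤ => (z : ℝ)) h3
    rw [h4]
    push_cast
    ring
  rw [h2]
  unfold tw
  apply max_eq_right
  have h5 : |(m : ℝ)| ≤ 2 * L := by exact_mod_cast h1
  have hL' : (0 : ℝ) < L := by exact_mod_cast hL
  apply div_nonneg _ hL'.le
  linarith

/-- one dimension -/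
theorem WWY_tw_sum (L : ℕ) (hL : 1 ≤ L) (f : ℤ → ℂ) :
    ∑ m ∈ Icc (-(2 * L : ℤ)) (2 * L), ((tw L m : ℝ) : ℂ) * f m =
      (1 / (L : ℂ)) * ∑ a ∈ Icc (-(L : ℤ)) L, ∑ b ∈ Icc (-(L : ℤ)) L, f (a + b) := by
  rw [WWY_conv, mul_sum]
  refine sum_congr rfl fun m hm => ?_
  rw [WWY_tw L hL m hm, nsmul_eq_mul]
  push_cast
  ring

/-- the majorant -/
theorem WWY_maj (L : ℕ) (h : ℤ → ℝ) (h0 : ∀ a, 0 ≤ h a) :
    (L : ℝ) * ∑ a ∈ Icc (-(L : ℤ)) L, h a ≤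
      ∑ j ∈ Icc (-(L : ℤ)) L, ∑ k ∈ Icc (-(L : ℤ)) L, h (j - k) := by
  have h1 : ∀ j : ℤ, ∑ k ∈ Icc (-(L : ℤ)) L, h (j - k) = ∑ k ∈ Icc (-(L : ℤ)) L, h (j + k) := by
    intro j
    refine sum_bij' (fun b _ => -b) (fun m _ => -m) ?_ ?_ ?_ ?_ ?_
    · intro b hb
      simp only [mem_Icc] at hb ⊢
      omega
    · intro b hb
      simp only [mem_Icc] at hb ⊢
      omega
    · intro b _
      ring
    · intro b _
      ring
    · intro b _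
      ring_nf
  simp only [h1]
  rw [WWY_conv, mul_sum]
  calc ∑ a ∈ Icc (-(L : ℤ)) L, (L : ℝ) * h a
      ≤ ∑ a ∈ Icc (-(L : ℤ)) L, (2 * (L : ℤ) + 1 - |a|).toNat • h a := by
        refine sum_le_sum fun a ha => ?_
        rw [nsmul_eq_mul]
        apply mul_le_mul_of_nonneg_right _ (h0 a)
        rw [mem_Icc] at ha
        have h3 : |a| ≤ L := abs_le.mpr ha
        have h4 : L ≤ (2 * (L : ℤ) + 1 - |a|).toNat := by omega
        exact_mod_cast h4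
    _ ≤ ∑ m ∈ Icc (-(2 * L : ℤ)) (2 * L), (2 * (L : ℤ) + 1 - |m|).toNat • h m := by
        apply sum_le_sum_of_subset_of_nonneg
        · intro a ha
          simp only [mem_Icc] at ha ⊢
          omega
        · intro a _ _
          rw [nsmul_eq_mul]
          exact mul_nonneg (Nat.cast_nonneg _) (h0 a)

/-- the majorant in two dimensions -/
theorem WWY_maj2 (L L' : ℕ) (h : ℤ → ℤ → ℝ) (h0 : ∀ a b, 0 ≤ h a b) :
    (L : ℝ) * L' * ∑ a ∈ Icc (-(L : ℤ)) L, ∑ b ∈ Icc (-(L' : ℤ)) L', h a b ≤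
      ∑ j ∈ Icc (-(L : ℤ)) L, ∑ k ∈ Icc (-(L : ℤ)) L,
        ∑ j' ∈ Icc (-(L' : ℤ)) L', ∑ k' ∈ Icc (-(L' : ℤ)) L', h (j - k) (j' - k') := by
  have h1 := WWY_maj L (fun a => ∑ b ∈ Icc (-(L' : ℤ)) L', h a b) (fun a => sum_nonneg fun b _ => h0 a b)
  calc (L : ℝ) * L' * ∑ a ∈ Icc (-(L : ℤ)) L, ∑ b ∈ Icc (-(L' : ℤ)) L', h a b
      = L' * (L * ∑ a ∈ Icc (-(L : ℤ)) L, ∑ b ∈ Icc (-(L' : ℤ)) L', h a b) := by ring
    _ ≤ L' * ∑ j ∈ Icc (-(L : ℤ)) L, ∑ k ∈ Icc (-(L : ℤ)) L, ∑ b ∈ Icc (-(L' : ℤ)) L', h (j - k) b :=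
        mul_le_mul_of_nonneg_left h1 (Nat.cast_nonneg _)
    _ = ∑ j ∈ Icc (-(L : ℤ)) L, ∑ k ∈ Icc (-(L : ℤ)) L, L' * ∑ b ∈ Icc (-(L' : ℤ)) L', h (j - k) b := by
        rw [mul_sum]
        refine sum_congr rfl fun j _ => ?_
        rw [mul_sum]
    _ ≤ _ := by
        refine sum_le_sum fun j _ => sum_le_sum fun k _ => ?_
        exact WWY_maj L' (fun b => h (j - k) b) (fun b => h0 _ b)

/-! ### Expansion of the square -/

theorem WWY_wt_nonneg (M : ℕ) (x : ℝ) : 0 ≤ helper3.FT.wt M x := by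
  unfold helper3.FT.wt
  split_ifs
  · positivity
  · have : 0 ≤ nd x := abs_nonneg _
    positivity

theorem WWY_K (L : ℕ) (x : ℝ) :
    ‖∑ j ∈ Icc (-(L : ℤ)) L, ∑ k ∈ Icc (-(L : ℤ)) L, e (x * ((j - k : ℤ) : ℝ))‖ ≤ helper3.FT.wt L x ^ 2 := by
  have h1 : ∑ j ∈ Icc (-(L : ℤ)) L, ∑ k ∈ Icc (-(L : ℤ)) L, e (x * ((j - k : ℤ) : ℝ)) =
      (∑ j ∈ Icc (-(L : ℤ)) L, e (x * j)) * (starRingEnd ℂ) (∑ j ∈ Icc (-(L : ℤ)) L, e (x * j)) := by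
    rw [map_sum, sum_mul_sum]
    refine sum_congr rfl fun j _ => sum_congr rfl fun k _ => ?_
    rw [E1_conj_e, ← E1_e_add]
    congr 1
    push_cast
    ring
  rw [h1, norm_mul, RCLike.norm_conj, ← sq]
  have h2 := E1_geom L x (-(L : ℤ)) L (by omega)
  exact pow_le_pow_left₀ (norm_nonneg _) h2 2

/-- sum over differences of `‖S‖²` -/
theorem WWY_exp {ι : Type} (L L' : ℕ) (B : Finset ι) (c : ι → ℂ) (hc : ∀ q, ‖c q‖ ≤ 1) (x y : ι → ℝ) :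
    ∑ j ∈ Icc (-(L : ℤ)) L, ∑ k ∈ Icc (-(L : ℤ)) L,
        ∑ j' ∈ Icc (-(L' : ℤ)) L', ∑ k' ∈ Icc (-(L' : ℤ)) L',
          ‖∑ q ∈ B, c q * e (x q * ((j - k : ℤ) : ℝ) + y q * ((j' - k' : ℤ) : ℝ))‖ ^ 2 ≤
      ∑ q ∈ B, ∑ q' ∈ B, helper3.FT.wt L (x q - x q') ^ 2 * helper3.FT.wt L' (y q - y q') ^ 2 := by
  have key : ((∑ j ∈ Icc (-(L : ℤ)) L, ∑ k ∈ Icc (-(L : ℤ)) L,
        ∑ j' ∈ Icc (-(L' : ℤ)) L', ∑ k' ∈ Icc (-(L' : ℤ)) L',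
          ‖∑ q ∈ B, c q * e (x q * ((j - k : ℤ) : ℝ) + y q * ((j' - k' : ℤ) : ℝ))‖ ^ 2 : ℝ) : ℂ) =
      ∑ q ∈ B, ∑ q' ∈ B, (c q * (starRingEnd ℂ) (c q')) *
        ((∑ j ∈ Icc (-(L : ℤ)) L, ∑ k ∈ Icc (-(L : ℤ)) L, e ((x q - x q') * ((j - k : ℤ) : ℝ))) *
          ∑ j' ∈ Icc (-(L' : ℤ)) L', ∑ k' ∈ Icc (-(L' : ℤ)) L', e ((y q - y q') * ((j' - k' : ℤ) : ℝ))) := by
    have e1 : ∀ s t : ℤ, ((‖∑ q ∈ B, c q * e (x q * (s : ℝ) + y q * (t : ℝ))‖ ^ 2 : ℝ) : ℂ) =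
        ∑ q ∈ B, ∑ q' ∈ B, (c q * (starRingEnd ℂ) (c q')) * (e ((x q - x q') * (s : ℝ)) * e ((y q - y q') * (t : ℝ))) := by
      intro s t
      rw [← Complex.normSq_eq_norm_sq, Complex.normSq_eq_conj_mul_self, mul_comm, map_sum, sum_mul_sum]
      refine sum_congr rfl fun q _ => sum_congr rfl fun q' _ => ?_
      rw [map_mul, E1_conj_e, ← E1_e_add]
      have : e (x q * (s : ℝ) + y q * (t : ℝ)) * e (-(x q' * (s : ℝ) + y q' * (t : ℝ))) =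
          e ((x q - x q') * (s : ℝ) + (y q - y q') * (t : ℝ)) := by
        rw [← E1_e_add]
        congr 1
        ring
      rw [← this]
      ring
    push_cast
    have e2 : ∀ j k j' k' : ℤ, ((‖∑ q ∈ B, c q * e (x q * ((j : ℝ) - k) + y q * ((j' : ℝ) - k'))‖ : ℝ) : ℂ) ^ 2 =
        ∑ q ∈ B, ∑ q' ∈ B, (c q * (starRingEnd ℂ) (c q')) *
          (e ((x q - x q') * ((j - k : ℤ) : ℝ)) * e ((y q - y q') * ((j' - k' : ℤ) : ℝ))) := by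
      intro j k j' k'
      rw [← e1]
      push_cast
      rfl
    simp only [e2]
    -- move the sums over q, q' to the front
    have e3 : ∀ j k : ℤ, ∑ j' ∈ Icc (-(L' : ℤ)) L', ∑ k' ∈ Icc (-(L' : ℤ)) L', ∑ q ∈ B, ∑ q' ∈ B,
        (c q * (starRingEnd ℂ) (c q')) * (e ((x q - x q') * ((j - k : ℤ) : ℝ)) * e ((y q - y q') * ((j' - k' : ℤ) : ℝ))) =
        ∑ q ∈ B, ∑ q' ∈ B, (c q * (starRingEnd ℂ) (c q')) * (e ((x q - x q') * ((j - k : ℤ) : ℝ)) *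
          ∑ j' ∈ Icc (-(L' : ℤ)) L', ∑ k' ∈ Icc (-(L' : ℤ)) L', e ((y q - y q') * ((j' - k' : ℤ) : ℝ))) := by
      intro j k
      have a1 : ∀ j' : ℤ, ∑ k' ∈ Icc (-(L' : ℤ)) L', ∑ q ∈ B, ∑ q' ∈ B,
          (c q * (starRingEnd ℂ) (c q')) * (e ((x q - x q') * ((j - k : ℤ) : ℝ)) * e ((y q - y q') * ((j' - k' : ℤ) : ℝ))) =
          ∑ q ∈ B, ∑ q' ∈ B, ∑ k' ∈ Icc (-(L' : ℤ)) L',
          (c q * (starRingEnd ℂ) (c q')) * (e ((x q - x q') * ((j - k : ℤ) : ℝ)) * e ((y q - y q') * ((j' - k' : ℤ) : ℝ))) := by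
        intro j'
        rw [sum_comm]
        refine sum_congr rfl fun q _ => ?_
        rw [sum_comm]
      simp only [a1]
      rw [sum_comm]
      refine sum_congr rfl fun q _ => ?_
      rw [sum_comm]
      refine sum_congr rfl fun q' _ => ?_
      simp only [mul_sum]
    simp only [e3]
    have a2 : ∀ j : ℤ, ∑ k ∈ Icc (-(L : ℤ)) L, ∑ q ∈ B, ∑ q' ∈ B, (c q * (starRingEnd ℂ) (c q')) * (e ((x q - x q') * ((j - k : ℤ) : ℝ)) *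
          ∑ j' ∈ Icc (-(L' : ℤ)) L', ∑ k' ∈ Icc (-(L' : ℤ)) L', e ((y q - y q') * ((j' - k' : ℤ) : ℝ))) =
        ∑ q ∈ B, ∑ q' ∈ B, ∑ k ∈ Icc (-(L : ℤ)) L, (c q * (starRingEnd ℂ) (c q')) * (e ((x q - x q') * ((j - k : ℤ) : ℝ)) *
          ∑ j' ∈ Icc (-(L' : ℤ)) L', ∑ k' ∈ Icc (-(L' : ℤ)) L', e ((y q - y q') * ((j' - k' : ℤ) : ℝ))) := by
      intro j
      rw [sum_comm]
      refine sum_congr rfl fun q _ => ?_
      rw [sum_comm]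
    simp only [a2]
    rw [sum_comm]
    refine sum_congr rfl fun q _ => ?_
    rw [sum_comm]
    refine sum_congr rfl fun q' _ => ?_
    rw [sum_mul, mul_sum]
    refine sum_congr rfl fun j _ => ?_
    rw [sum_mul, mul_sum]
    refine sum_congr rfl fun k _ => ?_
    push_cast
    rfl
  set X : ℝ := ∑ j ∈ Icc (-(L : ℤ)) L, ∑ k ∈ Icc (-(L : ℤ)) L,
        ∑ j' ∈ Icc (-(L' : ℤ)) L', ∑ k' ∈ Icc (-(L' : ℤ)) L',
          ‖∑ q ∈ B, c q * e (x q * ((j - k : ℤ) : ℝ) + y q * ((j' - k' : ℤ) : ℝ))‖ ^ 2 with hX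
  have hX0 : 0 ≤ X := by
    rw [hX]
    exact sum_nonneg fun _ _ => sum_nonneg fun _ _ => sum_nonneg fun _ _ => sum_nonneg fun _ _ => by positivity
  have h1 : X = ‖(X : ℂ)‖ := by
    rw [Complex.norm_real, Real.norm_of_nonneg hX0]
  rw [h1, key]
  refine (norm_sum_le _ _).trans (sum_le_sum fun q _ => (norm_sum_le _ _).trans (sum_le_sum fun q' _ => ?_))
  rw [norm_mul, norm_mul, norm_mul, RCLike.norm_conj]
  have b1 := WWY_K L (x q - x q')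
  have b2 := WWY_K L' (y q - y q')
  have b3 : ‖c q‖ * ‖c q'‖ ≤ 1 := mul_le_one₀ (hc q) (norm_nonneg _) (hc q')
  calc ‖c q‖ * ‖c q'‖ * (_ * _) ≤ 1 * (helper3.FT.wt L (x q - x q') ^ 2 * helper3.FT.wt L' (y q - y q') ^ 2) := by
        apply mul_le_mul b3 (mul_le_mul b1 b2 (norm_nonneg _) (by positivity)) (by positivity) (by norm_num)
    _ = _ := one_mul _

/-! ### Sums over differences -/

theorem WWY_diff (L L' : ℕ) (W : ℤ × ℤ → ℝ) (hW : ∀ p, 0 ≤ W p) :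
    ∑ q ∈ Icc (-(L : ℤ)) L ×ˢ Icc (-(L' : ℤ)) L', ∑ q' ∈ Icc (-(L : ℤ)) L ×ˢ Icc (-(L' : ℤ)) L', W (q - q') ≤
      ((2 * L + 1) * (2 * L' + 1) : ℝ) *
        ∑ p ∈ Icc (-(2 * L : ℤ)) (2 * L) ×ˢ Icc (-(2 * L' : ℤ)) (2 * L'), W p := by
  have h1 : ∀ q ∈ Icc (-(L : ℤ)) L ×ˢ Icc (-(L' : ℤ)) L',
      ∑ q' ∈ Icc (-(L : ℤ)) L ×ˢ Icc (-(L' : ℤ)) L', W (q - q') ≤
        ∑ p ∈ Icc (-(2 * L : ℤ)) (2 * L) ×ˢ Icc (-(2 * L' : ℤ)) (2 * L'), W p := by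
    intro q hq
    have hinj : Set.InjOn (fun q' : ℤ × ℤ => q - q')
        ((Icc (-(L : ℤ)) L ×ˢ Icc (-(L' : ℤ)) L' : Finset (ℤ × ℤ)) : Set (ℤ × ℤ)) := by
      intro a _ b _ hab
      simpa using hab
    have h2 : ∑ q' ∈ Icc (-(L : ℤ)) L ×ˢ Icc (-(L' : ℤ)) L', W (q - q') =
        ∑ p ∈ (Icc (-(L : ℤ)) L ×ˢ Icc (-(L' : ℤ)) L').image (fun q' => q - q'), W p :=
      (sum_image hinj).symm
    rw [h2]
    apply sum_le_sum_of_subset_of_nonneg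
    · intro p hp
      rw [mem_image] at hp
      obtain ⟨q', hq', rfl⟩ := hp
      simp only [mem_product, mem_Icc] at hq hq'
      simp only [mem_product, mem_Icc, Prod.fst_sub, Prod.snd_sub]
      omega
    · intro p _ _
      exact hW p
  refine (sum_le_sum h1).trans ?_
  rw [sum_const, nsmul_eq_mul, card_product, Int.card_Icc, Int.card_Icc]
  apply le_of_eq
  congr 1
  have e1 : ((L : ℤ) + 1 - -(L : ℤ)).toNat = 2 * L + 1 := by omega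
  have e2 : ((L' : ℤ) + 1 - -(L' : ℤ)).toNat = 2 * L' + 1 := by omega
  rw [e1, e2]
  push_cast
  ring

/-! ### Cells -/

theorem WWY_inv_sq (m : ℕ) : ∑ k ∈ range m, (1 / ((k : ℝ) + 1) ^ 2) ≤ 2 := by
  have h : ∀ m : ℕ, ∑ k ∈ range m, (1 / ((k : ℝ) + 1) ^ 2) ≤ 2 - 2 / ((m : ℝ) + 1) := by
    intro m
    induction m with
    | zero => norm_num
    | succ m ih =>
      rw [sum_range_succ]
      have hm : (0 : ℝ) < (m : ℝ) + 1 := by positivity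
      have hm2 : (0 : ℝ) < (m : ℝ) + 1 + 1 := by positivity
      have h1 : 1 / ((m : ℝ) + 1) ^ 2 ≤ 2 / ((m : ℝ) + 1) - 2 / ((m : ℝ) + 1 + 1) := by
        rw [div_sub_div _ _ hm.ne' hm2.ne', div_le_div_iff₀ (by positivity) (by positivity)]
        nlinarith [hm, hm2, mul_pos hm hm, mul_pos (mul_pos hm hm) hm]
      push_cast
      linarith
  have h2 : 0 ≤ 2 / ((m : ℝ) + 1) := by positivity
  linarith [h m]

theorem WWY_E2A (M : ℕ) (hM : 1 ≤ M) : ∑ i ∈ range M, E2A M i ^ 2 ≤ 10 * (M : ℝ) ^ 2 := by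
  have hM' : (1 : ℝ) ≤ M := by exact_mod_cast hM
  obtain ⟨m, rfl⟩ : ∃ m, M = m + 1 := ⟨M - 1, by omega⟩
  rw [Finset.sum_range_succ']
  have h0 : E2A (m + 1) 0 = 2 * ((m + 1 : ℕ) : ℝ) + 1 := by simp [E2A]
  have h1 : ∀ k ∈ range m, E2A (m + 1) (k + 1) ^ 2 =
      ((m + 1 : ℕ) : ℝ) ^ 2 / 4 * (1 / ((k : ℝ) + 1) ^ 2) := by
    intro k _
    simp only [E2A, Nat.succ_ne_zero, if_false]
    push_cast
    field_simp
    norm_num
  rw [Finset.sum_congr rfl h1, ← Finset.mul_sum, h0]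
  have h2 := WWY_inv_sq m
  have h3 : ((m + 1 : ℕ) : ℝ) ^ 2 / 4 * ∑ k ∈ range m, (1 / ((k : ℝ) + 1) ^ 2) ≤
      ((m + 1 : ℕ) : ℝ) ^ 2 / 4 * 2 := mul_le_mul_of_nonneg_left h2 (by positivity)
  nlinarith

theorem WWY_E2W (M : ℕ) (hM : 1 ≤ M) : ∑ i ∈ range M, E2W M i ^ 2 ≤ 40 * (M : ℝ) ^ 2 := by
  have h1 : ∀ i, E2W M i ^ 2 ≤ 2 * E2A M i ^ 2 + 2 * E2A M (M - 1 - i) ^ 2 := by
    intro i
    unfold E2W
    nlinarith [sq_nonneg (E2A M i - E2A M (M - 1 - i))]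
  refine (Finset.sum_le_sum fun i _ => h1 i).trans ?_
  rw [Finset.sum_add_distrib, Finset.sum_range_reflect (fun i => 2 * E2A M i ^ 2) M, ← Finset.mul_sum]
  have := WWY_E2A M hM
  linarith

theorem WWY_cells (M G : ℕ) (hM : 1 ≤ M) (hG : 1 ≤ G) (a b b' c : ℝ) :
    ∑ p ∈ Icc (-(2 * M : ℤ)) (2 * M) ×ˢ Icc (-(2 * G : ℤ)) (2 * G),
      helper3.FT.wt M (a * p.1 + b * p.2) ^ 2 * helper3.FT.wt G (b' * p.1 + c * p.2) ^ 2 ≤
    1600 * (M : ℝ) ^ 2 * (G : ℝ) ^ 2 *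
      (((Icc (-(4 * M : ℤ)) (4 * M) ×ˢ Icc (-(4 * G : ℤ)) (4 * G)).filter
        (fun p => nd (a * p.1 + b * p.2) ≤ 1 / M ∧ nd (b' * p.1 + c * p.2) ≤ 1 / G)).card : ℝ) := by
  classical
  set R := ((Icc (-(4 * M : ℤ)) (4 * M) ×ˢ Icc (-(4 * G : ℤ)) (4 * G)).filter
        (fun p => nd (a * p.1 + b * p.2) ≤ 1 / M ∧ nd (b' * p.1 + c * p.2) ≤ 1 / G)) with hR
  set P := (Icc (-(2 * M : ℤ)) (2 * M) ×ˢ Icc (-(2 * G : ℤ)) (2 * G)) with hP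
  let L1 : ℤ × ℤ → ℝ := fun p => a * p.1 + b * p.2
  let L2 : ℤ × ℤ → ℝ := fun p => b' * p.1 + c * p.2
  have s1 : ∑ p ∈ P, helper3.FT.wt M (L1 p) ^ 2 * helper3.FT.wt G (L2 p) ^ 2 ≤
      ∑ p ∈ P, E2W M (E2i M (L1 p)) ^ 2 * E2W G (E2i G (L2 p)) ^ 2 := by
    apply Finset.sum_le_sum
    intro p _
    exact mul_le_mul (pow_le_pow_left₀ (WWY_wt_nonneg _ _) (E2_wt M hM _) 2)
      (pow_le_pow_left₀ (WWY_wt_nonneg _ _) (E2_wt G hG _) 2) (by positivity) (by positivity)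
  let T := range M ×ˢ range G
  let g : ℤ × ℤ → ℕ × ℕ := fun p => (E2i M (L1 p), E2i G (L2 p))
  have hg : ∀ p ∈ P, g p ∈ T := by
    intro p _
    simp only [T, g, Finset.mem_product, Finset.mem_range]
    exact ⟨E2i_lt hM _, E2i_lt hG _⟩
  have s2 : ∑ p ∈ P, E2W M (E2i M (L1 p)) ^ 2 * E2W G (E2i G (L2 p)) ^ 2 =
      ∑ t ∈ T, ((P.filter (fun p => g p = t)).card : ℝ) * (E2W M t.1 ^ 2 * E2W G t.2 ^ 2) := by
    rw [← Finset.sum_fiberwise_of_maps_to hg]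
    apply Finset.sum_congr rfl
    intro t _
    rw [← nsmul_eq_mul, ← Finset.sum_const]
    apply Finset.sum_congr rfl
    intro p hp
    have := (Finset.mem_filter.mp hp).2
    rw [← this]
  have s3 : ∀ t, ((P.filter (fun p => g p = t)).card : ℝ) ≤ (R.card : ℝ) := by
    intro t
    rcases (P.filter (fun p => g p = t)).eq_empty_or_nonempty with h | ⟨p0, hp0⟩
    · rw [h]
      simp
    · norm_cast
      apply Finset.card_le_card_of_injOn (fun p => (p.1 - p0.1, p.2 - p0.2))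
      · intro p hp
        rw [Finset.mem_coe, Finset.mem_filter] at hp
        rw [Finset.mem_filter] at hp0
        obtain ⟨hpP, hpt⟩ := hp
        obtain ⟨hp0P, hp0t⟩ := hp0
        simp only [hP, Finset.mem_product, Finset.mem_Icc] at hpP hp0P
        have hgg : g p = g p0 := by rw [hpt, hp0t]
        simp only [g, Prod.mk.injEq] at hgg
        rw [Finset.mem_coe, hR, Finset.mem_filter]
        simp only [Finset.mem_product, Finset.mem_Icc]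
        have n1 := E2_nd_sub hM hgg.1
        have n2 := E2_nd_sub hG hgg.2
        have f1 : L1 p - L1 p0 = a * ((p.1 - p0.1 : ℤ) : ℝ) + b * ((p.2 - p0.2 : ℤ) : ℝ) := by
          simp only [L1]
          push_cast
          ring
        have f2 : L2 p - L2 p0 = b' * ((p.1 - p0.1 : ℤ) : ℝ) + c * ((p.2 - p0.2 : ℤ) : ℝ) := by
          simp only [L2]
          push_cast
          ring
        rw [f1] at n1
        rw [f2] at n2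
        refine ⟨⟨⟨?_, ?_⟩, ?_, ?_⟩, n1, n2⟩ <;> omega
      · intro p _ q _ hpq
        simp only [Prod.mk.injEq] at hpq
        ext
        · have := hpq.1
          omega
        · have := hpq.2
          omega
  have s4 : ∑ t ∈ T, ((P.filter (fun p => g p = t)).card : ℝ) * (E2W M t.1 ^ 2 * E2W G t.2 ^ 2) ≤
      ∑ t ∈ T, (R.card : ℝ) * (E2W M t.1 ^ 2 * E2W G t.2 ^ 2) := by
    apply Finset.sum_le_sum
    intro t _
    exact mul_le_mul_of_nonneg_right (s3 t) (by positivity)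
  have s5 : ∑ t ∈ T, (R.card : ℝ) * (E2W M t.1 ^ 2 * E2W G t.2 ^ 2) =
      (R.card : ℝ) * ((∑ i ∈ range M, E2W M i ^ 2) * ∑ j ∈ range G, E2W G j ^ 2) := by
    rw [← Finset.mul_sum, Finset.sum_mul_sum, Finset.sum_product]
  have s6 : (∑ i ∈ range M, E2W M i ^ 2) * ∑ j ∈ range G, E2W G j ^ 2 ≤
      (40 * (M : ℝ) ^ 2) * (40 * (G : ℝ) ^ 2) := by
    apply mul_le_mul (WWY_E2W M hM) (WWY_E2W G hG) (Finset.sum_nonneg (fun i _ => by positivity))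
    positivity
  calc ∑ p ∈ P, helper3.FT.wt M (L1 p) ^ 2 * helper3.FT.wt G (L2 p) ^ 2
      ≤ ∑ t ∈ T, ((P.filter (fun p => g p = t)).card : ℝ) * (E2W M t.1 ^ 2 * E2W G t.2 ^ 2) := s1.trans s2.le
    _ ≤ (R.card : ℝ) * ((∑ i ∈ range M, E2W M i ^ 2) * ∑ j ∈ range G, E2W G j ^ 2) := s4.trans s5.le
    _ ≤ (R.card : ℝ) * ((40 * (M : ℝ) ^ 2) * (40 * (G : ℝ) ^ 2)) :=
        mul_le_mul_of_nonneg_left s6 (Nat.cast_nonneg _)
    _ = 1600 * (M : ℝ) ^ 2 * (G : ℝ) ^ 2 * (R.card : ℝ) := by ring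

/-! ### The theorem -/

/-- the quadratic polynomial -/
noncomputable def WWY_ph (c : Fin 5 → ℝ) (m g : ℤ) : ℝ :=
  c 0 * (m : ℝ) ^ 2 + c 1 * m * g + c 2 * (g : ℝ) ^ 2 + c 3 * m + c 4 * g

theorem WWY_TS (L L' : ℕ) (c : Fin 5 → ℝ) (hL : 1 ≤ L) (hL' : 1 ≤ L') :
    TS L L' c = (1 / (L : ℂ)) * (1 / (L' : ℂ)) *
      ∑ p ∈ Icc (-(L : ℤ)) L ×ˢ Icc (-(L' : ℤ)) L', ∑ q ∈ Icc (-(L : ℤ)) L ×ˢ Icc (-(L' : ℤ)) L',
        e (WWY_ph c (p.1 + q.1) (p.2 + q.2)) := by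
  have h1 : TS L L' c = ∑ m ∈ Icc (-(2 * L : ℤ)) (2 * L), ((tw L m : ℝ) : ℂ) *
      ∑ g ∈ Icc (-(2 * L' : ℤ)) (2 * L'), ((tw L' g : ℝ) : ℂ) * e (WWY_ph c m g) := by
    unfold TS WWY_ph
    refine sum_congr rfl fun m _ => ?_
    rw [mul_sum]
    refine sum_congr rfl fun g _ => ?_
    push_cast
    ring
  rw [h1, WWY_tw_sum L hL]
  simp only [WWY_tw_sum L' hL']
  rw [mul_assoc, mul_sum (a := (1 / (L' : ℂ)))]
  congr 1
  rw [sum_product]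
  refine sum_congr rfl fun a _ => ?_
  rw [← mul_sum, ← mul_sum]
  congr 1
  simp only [sum_product]
  rw [sum_comm]

theorem WWY_split (c : Fin 5 → ℝ) (p q : ℤ × ℤ) :
    e (WWY_ph c (p.1 + q.1) (p.2 + q.2)) = e (WWY_ph c p.1 p.2) *
      (e (WWY_ph c q.1 q.2) * e ((2 * c 0 * q.1 + c 1 * q.2) * (p.1 : ℝ) + (c 1 * q.1 + 2 * c 2 * q.2) * (p.2 : ℝ))) := by
  rw [← E1_e_add, ← E1_e_add]
  congr 1
  unfold WWY_ph
  push_cast
  ring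

/-- **WWY** -/
theorem WWY : WWY_stmt := by
  refine ⟨129600, by norm_num, ?_⟩
  intro L L' c hL hL'
  have hLr : (1 : ℝ) ≤ L := by exact_mod_cast hL
  have hLr' : (1 : ℝ) ≤ L' := by exact_mod_cast hL'
  set P := Icc (-(L : ℤ)) L ×ˢ Icc (-(L' : ℤ)) L' with hP
  let S : ℤ → ℤ → ℂ := fun a a' => ∑ q ∈ P, e (WWY_ph c q.1 q.2) *
    e ((2 * c 0 * q.1 + c 1 * q.2) * (a : ℝ) + (c 1 * q.1 + 2 * c 2 * q.2) * (a' : ℝ))
  have hcard : (P.card : ℝ) = (2 * L + 1) * (2 * L' + 1) := by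
    rw [hP, card_product, Int.card_Icc, Int.card_Icc]
    have e1 : ((L : ℤ) + 1 - -(L : ℤ)).toNat = 2 * L + 1 := by omega
    have e2 : ((L' : ℤ) + 1 - -(L' : ℤ)).toNat = 2 * L' + 1 := by omega
    rw [e1, e2]
    push_cast
    ring
  -- Cauchy
  have h1 : ‖TS L L' c‖ ^ 2 * ((L : ℝ) * L') ^ 2 ≤ P.card * ∑ p ∈ P, ‖S p.1 p.2‖ ^ 2 := by
    rw [WWY_TS L L' c hL hL']
    have a1 : ∑ p ∈ P, ∑ q ∈ P, e (WWY_ph c (p.1 + q.1) (p.2 + q.2)) =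
        ∑ p ∈ P, e (WWY_ph c p.1 p.2) * S p.1 p.2 := by
      refine sum_congr rfl fun p _ => ?_
      simp only [S]
      rw [mul_sum]
      exact sum_congr rfl fun q _ => WWY_split c p q
    rw [a1, norm_mul, norm_mul, norm_div, norm_div, norm_one, Complex.norm_natCast, Complex.norm_natCast]
    have a2 : ‖∑ p ∈ P, e (WWY_ph c p.1 p.2) * S p.1 p.2‖ ≤ ∑ p ∈ P, ‖S p.1 p.2‖ := by
      refine (norm_sum_le _ _).trans (le_of_eq ?_)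
      refine sum_congr rfl fun p _ => ?_
      rw [norm_mul, E1_norm_e, one_mul]
    have a3 : (∑ p ∈ P, ‖S p.1 p.2‖) ^ 2 ≤ P.card * ∑ p ∈ P, ‖S p.1 p.2‖ ^ 2 := sq_sum_le_card_mul_sum_sq
    have a4 : (1 / (L : ℝ) * (1 / (L' : ℝ)) * ‖∑ p ∈ P, e (WWY_ph c p.1 p.2) * S p.1 p.2‖) ^ 2 * ((L : ℝ) * L') ^ 2 =
        ‖∑ p ∈ P, e (WWY_ph c p.1 p.2) * S p.1 p.2‖ ^ 2 := by
      have : (L : ℝ) ≠ 0 := by positivity
      have : (L' : ℝ) ≠ 0 := by positivity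
      field_simp
    rw [a4]
    exact (pow_le_pow_left₀ (norm_nonneg _) a2 2).trans a3
  -- the majorant
  have h2 : (L : ℝ) * L' * ∑ p ∈ P, ‖S p.1 p.2‖ ^ 2 ≤
      ∑ q ∈ P, ∑ q' ∈ P, helper3.FT.wt L ((2 * c 0 * q.1 + c 1 * q.2) - (2 * c 0 * q'.1 + c 1 * q'.2)) ^ 2 *
        helper3.FT.wt L' ((c 1 * q.1 + 2 * c 2 * q.2) - (c 1 * q'.1 + 2 * c 2 * q'.2)) ^ 2 := by
    have b1 := WWY_maj2 L L' (fun a a' => ‖S a a'‖ ^ 2) (fun _ _ => by positivity)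
    have b2 := WWY_exp L L' P (fun q => e (WWY_ph c q.1 q.2)) (fun q => (E1_norm_e _).le)
      (fun q => 2 * c 0 * q.1 + c 1 * q.2) (fun q => c 1 * q.1 + 2 * c 2 * q.2)
    have b3 : ∑ p ∈ P, ‖S p.1 p.2‖ ^ 2 = ∑ a ∈ Icc (-(L : ℤ)) L, ∑ b ∈ Icc (-(L' : ℤ)) L', ‖S a b‖ ^ 2 := by
      rw [hP, sum_product]
    rw [b3]
    exact b1.trans b2
  let W : ℤ × ℤ → ℝ := fun p => helper3.FT.wt L (2 * c 0 * p.1 + c 1 * p.2) ^ 2 * helper3.FT.wt L' (c 1 * p.1 + 2 * c 2 * p.2) ^ 2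
  have h3 : ∑ q ∈ P, ∑ q' ∈ P, helper3.FT.wt L ((2 * c 0 * q.1 + c 1 * q.2) - (2 * c 0 * q'.1 + c 1 * q'.2)) ^ 2 *
        helper3.FT.wt L' ((c 1 * q.1 + 2 * c 2 * q.2) - (c 1 * q'.1 + 2 * c 2 * q'.2)) ^ 2 =
      ∑ q ∈ P, ∑ q' ∈ P, W (q - q') := by
    refine sum_congr rfl fun q _ => sum_congr rfl fun q' _ => ?_
    simp only [W, Prod.fst_sub, Prod.snd_sub]
    have a1 : (2 * c 0 * (q.1 : ℝ) + c 1 * q.2) - (2 * c 0 * q'.1 + c 1 * q'.2) =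
        2 * c 0 * ((q.1 - q'.1 : ℤ) : ℝ) + c 1 * ((q.2 - q'.2 : ℤ) : ℝ) := by
      push_cast
      ring
    have a2 : (c 1 * (q.1 : ℝ) + 2 * c 2 * q.2) - (c 1 * q'.1 + 2 * c 2 * q'.2) =
        c 1 * ((q.1 - q'.1 : ℤ) : ℝ) + 2 * c 2 * ((q.2 - q'.2 : ℤ) : ℝ) := by
      push_cast
      ring
    rw [a1, a2]
  have h4 := WWY_diff L L' W (fun p => by positivity)
  have h5 := WWY_cells L L' hL hL' (2 * c 0) (c 1) (c 1) (2 * c 2)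
  set near : ℝ := ((nearPts L L' (c 0) (c 1) (c 2)).card : ℝ) with hnear
  have h6 : ∑ p ∈ Icc (-(2 * L : ℤ)) (2 * L) ×ˢ Icc (-(2 * L' : ℤ)) (2 * L'), W p ≤
      1600 * (L : ℝ) ^ 2 * (L' : ℝ) ^ 2 * near := by
    refine h5.trans (le_of_eq ?_)
    congr 1
  have hnear0 : 0 ≤ near := by positivity
  -- assembly
  have h7 : (L : ℝ) * L' * (‖TS L L' c‖ ^ 2 * ((L : ℝ) * L') ^ 2) ≤
      ((2 * L + 1) * (2 * L' + 1)) * (((2 * L + 1) * (2 * L' + 1)) * (1600 * (L : ℝ) ^ 2 * (L' : ℝ) ^ 2 * near)) := by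
    calc (L : ℝ) * L' * (‖TS L L' c‖ ^ 2 * ((L : ℝ) * L') ^ 2)
        ≤ (L : ℝ) * L' * (P.card * ∑ p ∈ P, ‖S p.1 p.2‖ ^ 2) := mul_le_mul_of_nonneg_left h1 (by positivity)
      _ = ((2 * L + 1) * (2 * L' + 1)) * ((L : ℝ) * L' * ∑ p ∈ P, ‖S p.1 p.2‖ ^ 2) := by rw [hcard]; ring
      _ ≤ ((2 * L + 1) * (2 * L' + 1)) * (((2 * L + 1) * (2 * L' + 1)) * (1600 * (L : ℝ) ^ 2 * (L' : ℝ) ^ 2 * near)) := by
        apply mul_le_mul_of_nonneg_left _ (by positivity)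
        refine h2.trans ?_
        rw [h3]
        refine h4.trans ?_
        exact mul_le_mul_of_nonneg_left h6 (by positivity)
  have h8 : ((2 * (L : ℝ) + 1) * (2 * L' + 1)) ≤ 9 * (L * L') := by nlinarith
  have h9 : (((2 * (L : ℝ) + 1) * (2 * L' + 1)) * (((2 * L + 1) * (2 * L' + 1)) * (1600 * (L : ℝ) ^ 2 * (L' : ℝ) ^ 2 * near))) ≤
      (9 * (L * L')) * ((9 * (L * L')) * (1600 * (L : ℝ) ^ 2 * (L' : ℝ) ^ 2 * near)) := by
    apply mul_le_mul h8 (mul_le_mul_of_nonneg_right h8 (by positivity)) (by positivity) (by positivity)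
  have h10 : (9 * ((L : ℝ) * L')) * ((9 * (L * L')) * (1600 * (L : ℝ) ^ 2 * (L' : ℝ) ^ 2 * near)) =
      ((L : ℝ) * L') ^ 3 * (129600 * L * L' * near) := by ring
  have h11 : (L : ℝ) * L' * (‖TS L L' c‖ ^ 2 * ((L : ℝ) * L') ^ 2) = ((L : ℝ) * L') ^ 3 * ‖TS L L' c‖ ^ 2 := by ring
  have h12 : ((L : ℝ) * L') ^ 3 * ‖TS L L' c‖ ^ 2 ≤ ((L : ℝ) * L') ^ 3 * (129600 * L * L' * near) := by
    rw [← h11, ← h10]
    exact h7.trans h9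
  exact le_of_mul_le_mul_left h12 (by positivity)

end Pool.Agent.T6
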